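import Mathlib

/-!
# Norm-separable transitive groups of isometries: the orbit maps are open

If a group of surjective linear isometries of a Banach space which is separable for the operator
norm acts transitively on the unit sphere, then for every `κ > 0` there is `t > 0` such that for all
unit vectors `x, y` with `‖y - x‖ ≤ t` there is a surjective linear isometry `T` with `T x = y` and
`‖T - 1‖ ≤ κ` (Baire category and successive approximations).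
-/

set_option autoImplicit false
set_option linter.unusedSectionVars false

namespace Pool.Agent.H821.Rot

open TopologicalSpace Metric Filter Topology

variable {E : Type*} [NormedAddCommGroup E] [NormedSpace ℝ E]

/-- an isometry as a bounded operator -/
def op (T : E ≃ₗᵢ[ℝ] E) : E →L[ℝ] E := T.toLinearIsometry.toContinuousLinearMap

@[simp] lemma op_apply (T : E ≃ₗᵢ[ℝ] E) (x : E) : op T x = T x := rfl

lemma op_mul (S T : E ≃ₗᵢ[ℝ] E) : op (S * T) = op S * op T := rfl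

lemma op_one : op (1 : E ≃ₗᵢ[ℝ] E) = 1 := rfl

lemma norm_op_mul_left (S : E ≃ₗᵢ[ℝ] E) (a : E →L[ℝ] E) : ‖op S * a‖ = ‖a‖ := by
  apply le_antisymm
  · refine ContinuousLinearMap.opNorm_le_bound _ (norm_nonneg _) fun x => ?_
    show ‖S (a x)‖ ≤ _
    rw [S.norm_map]
    exact a.le_opNorm x
  · refine ContinuousLinearMap.opNorm_le_bound _ (norm_nonneg _) fun x => ?_
    rw [← S.norm_map (a x)]
    exact (op S * a).le_opNorm x

lemma norm_op_mul_right (a : E →L[ℝ] E) (S : E ≃ₗᵢ[ℝ] E) : ‖a * op S‖ = ‖a‖ := by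
  apply le_antisymm
  · refine ContinuousLinearMap.opNorm_le_bound _ (norm_nonneg _) fun x => ?_
    show ‖a (S x)‖ ≤ _
    refine (a.le_opNorm _).trans ?_
    rw [S.norm_map]
  · refine ContinuousLinearMap.opNorm_le_bound _ (norm_nonneg _) fun x => ?_
    have h1 : a x = (a * op S) (S⁻¹ x) := by
      show a x = a (S (S⁻¹ x))
      congr 1
      exact (S.apply_symm_apply x).symm
    rw [h1]
    refine ((a * op S).le_opNorm _).trans ?_
    have : ‖S⁻¹ x‖ = ‖x‖ := (S⁻¹ : E ≃ₗᵢ[ℝ] E).norm_map x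
    rw [this]

lemma op_inv_mul (S : E ≃ₗᵢ[ℝ] E) : op S⁻¹ * op S = 1 := by
  rw [← op_mul, inv_mul_cancel, op_one]

lemma op_mul_inv (S : E ≃ₗᵢ[ℝ] E) : op S * op S⁻¹ = 1 := by
  rw [← op_mul, mul_inv_cancel, op_one]

lemma norm_op_inv_sub_one (S : E ≃ₗᵢ[ℝ] E) : ‖op S⁻¹ - 1‖ = ‖op S - 1‖ := by
  have h : op S⁻¹ - 1 = op S⁻¹ * (1 - op S) := by
    rw [mul_sub, mul_one, op_inv_mul]
  rw [h, norm_op_mul_left, norm_sub_rev]

lemma norm_op_apply_sub (S : E ≃ₗᵢ[ℝ] E) (x : E) : ‖S x - x‖ ≤ ‖op S - 1‖ * ‖x‖ :=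
  (op S - 1).le_opNorm x

/-- the operators of a set of isometries -/
def ops (G : Set (E ≃ₗᵢ[ℝ] E)) : Set (E →L[ℝ] E) := op '' G

/-- Baire category -/
theorem near_open_norm [CompleteSpace E] (G : Subgroup (E ≃ₗᵢ[ℝ] E))
    (hsep : IsSeparable (ops (G : Set (E ≃ₗᵢ[ℝ] E))))
    (htr : ∀ x y : E, ‖x‖ = 1 → ‖y‖ = 1 → ∃ T ∈ G, T x = y) {κ : ℝ} (hκ : 0 < κ) :
    ∃ t : ℝ, 0 < t ∧ ∀ x y : E, ‖x‖ = 1 → ‖y‖ = 1 → ‖y - x‖ ≤ t → ∀ η : ℝ, 0 < η →
      ∃ T ∈ G, ‖T x - y‖ ≤ η ∧ ‖op T - 1‖ ≤ κ := by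
  by_cases hne : ∃ x : E, ‖x‖ = 1
  swap
  · exact ⟨1, one_pos, fun x y hx => absurd ⟨x, hx⟩ hne⟩
  obtain ⟨x0, hx0⟩ := hne
  -- countable cover
  obtain ⟨c, hcc, hcG⟩ := hsep
  have hcov : ∀ T ∈ G, ∃ a ∈ c, ‖op T - a‖ < κ / 4 := by
    intro T hT
    obtain ⟨a, ha, hd⟩ := Metric.mem_closure_iff.1 (hcG ⟨T, hT, rfl⟩) (κ / 4) (by positivity)
    exact ⟨a, ha, by rwa [dist_eq_norm] at hd⟩
  -- choose group elements near the members of `c`
  have hsel : ∀ a : E →L[ℝ] E, ∃ g : E ≃ₗᵢ[ℝ] E, g ∈ G ∧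
      ((∃ T ∈ G, ‖op T - a‖ < κ / 4) → ‖op g - a‖ < κ / 4) := by
    intro a
    by_cases h : ∃ T ∈ G, ‖op T - a‖ < κ / 4
    · obtain ⟨T, hT, h1⟩ := h
      exact ⟨T, hT, fun _ => h1⟩
    · exact ⟨1, G.one_mem, fun h' => absurd h' h⟩
  choose g hgG hg using hsel
  have hcov2 : ∀ T ∈ G, ∃ a ∈ c, ‖op ((g a)⁻¹ * T) - 1‖ ≤ κ / 2 := by
    intro T hT
    obtain ⟨a, ha, h1⟩ := hcov T hT
    refine ⟨a, ha, ?_⟩
    have h2 := hg a ⟨T, hT, h1⟩
    have h3 : op ((g a)⁻¹ * T) - 1 = op (g a)⁻¹ * (op T - op (g a)) := by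
      rw [mul_sub, op_inv_mul, op_mul]
    rw [h3, norm_op_mul_left]
    calc ‖op T - op (g a)‖ = ‖(op T - a) - (op (g a) - a)‖ := by congr 1; abel
      _ ≤ ‖op T - a‖ + ‖op (g a) - a‖ := norm_sub_le _ _
      _ ≤ κ / 2 := by linarith
  -- the orbit of `x0` under the neighbourhood
  set A : Set E := {z | ∃ T ∈ G, ‖op T - 1‖ ≤ κ / 2 ∧ T x0 = z} with hA
  set S : Set E := sphere (0 : E) 1 with hS
  have : CompleteSpace S := (isClosed_sphere).completeSpace_coe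
  have : Nonempty S := ⟨⟨x0, by rw [hS, mem_sphere_zero_iff_norm]; exact hx0⟩⟩
  have : Countable c := hcc.to_subtype
  set f : c → Set S := fun a => {y : S | (g (a : E →L[ℝ] E))⁻¹ (y : E) ∈ closure A} with hf
  have hfc : ∀ a, IsClosed (f a) := by
    intro a
    exact isClosed_closure.preimage
      (((g (a : E →L[ℝ] E))⁻¹ : E ≃ₗᵢ[ℝ] E).continuous.comp continuous_subtype_val)
  have hU : ⋃ a, f a = Set.univ := by
    rw [Set.eq_univ_iff_forall]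
    rintro ⟨y, hy⟩
    rw [hS, mem_sphere_zero_iff_norm] at hy
    obtain ⟨T, hTG, hT⟩ := htr x0 y hx0 hy
    obtain ⟨a, ha, h1⟩ := hcov2 T hTG
    refine Set.mem_iUnion.2 ⟨⟨a, ha⟩, ?_⟩
    show (g a)⁻¹ y ∈ closure A
    refine subset_closure ⟨(g a)⁻¹ * T, G.mul_mem (G.inv_mem (hgG a)) hTG, h1, ?_⟩
    show (g a)⁻¹ (T x0) = _
    rw [hT]
  obtain ⟨a, y0, hy0⟩ := nonempty_interior_of_iUnion_of_closed hfc hU
  rw [mem_interior_iff_mem_nhds, Metric.mem_nhds_iff] at hy0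
  obtain ⟨r, hr0, hr⟩ := hy0
  set h : E ≃ₗᵢ[ℝ] E := g (a : E →L[ℝ] E) with hh
  have hhG : h ∈ G := hgG _
  have hr' : ∀ y : E, ‖y‖ = 1 → ‖y - y0‖ < r → h⁻¹ y ∈ closure A := by
    intro y hy hyr
    have h1 : (⟨y, by rw [hS, mem_sphere_zero_iff_norm]; exact hy⟩ : S) ∈ ball y0 r := by
      rw [mem_ball, Subtype.dist_eq, dist_eq_norm]
      exact hyr
    exact hr h1
  have hy0n : ‖(y0 : E)‖ = 1 := mem_sphere_zero_iff_norm.1 y0.2
  have h0 : h⁻¹ (y0 : E) ∈ closure A := hr' y0 hy0n (by simpa using hr0)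
  obtain ⟨b, ⟨v, hvG, hv1, rfl⟩, hv2⟩ := Metric.mem_closure_iff.1 h0 (r / 2) (by positivity)
  rw [dist_eq_norm] at hv2
  have happ : ∀ (s : E ≃ₗᵢ[ℝ] E) (z : E), s (s⁻¹ z) = z := fun s z => s.apply_symm_apply z
  have happ' : ∀ (s : E ≃ₗᵢ[ℝ] E) (z : E), s⁻¹ (s z) = z := fun s z => s.symm_apply_apply z
  have hn' : ∀ (s : E ≃ₗᵢ[ℝ] E) (z : E), ‖s⁻¹ z‖ = ‖z‖ := fun s z => s.symm.norm_map z
  -- the case `x = x0`
  have key : ∀ y : E, ‖y‖ = 1 → ‖y - x0‖ ≤ r / 4 → ∀ η : ℝ, 0 < η →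
      ∃ T ∈ G, ‖T x0 - y‖ ≤ η ∧ ‖op T - 1‖ ≤ κ := by
    intro y hy hyx η hη
    have h1 : v y ∈ closure A := by
      have h2 : h⁻¹ (h (v y)) ∈ closure A := by
        refine hr' _ (by rw [h.norm_map, v.norm_map, hy]) ?_
        have h3 : h (v y) - (y0 : E) = h (v (y - x0)) + h (v x0 - h⁻¹ y0) := by
          rw [← map_add, map_sub v]
          have : v y - v x0 + (v x0 - h⁻¹ (y0 : E)) = v y - h⁻¹ (y0 : E) := by abel
          rw [this, map_sub h, happ]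
        rw [h3]
        refine (norm_add_le _ _).trans_lt ?_
        rw [h.norm_map, h.norm_map, v.norm_map, norm_sub_rev (v x0)]
        linarith
      rwa [happ'] at h2
    obtain ⟨b, ⟨T, hTG, hT1, rfl⟩, hT2⟩ := Metric.mem_closure_iff.1 h1 η hη
    rw [dist_eq_norm] at hT2
    refine ⟨v⁻¹ * T, G.mul_mem (G.inv_mem hvG) hTG, ?_, ?_⟩
    · show ‖v⁻¹ (T x0) - y‖ ≤ η
      have h2 : v⁻¹ (T x0) - y = v⁻¹ (T x0 - v y) := by
        rw [map_sub, happ']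
      rw [h2, hn', norm_sub_rev]
      exact hT2.le
    · have h2 : op (v⁻¹ * T) - 1 = op v⁻¹ * ((op T - 1) - (op v - 1)) := by
        rw [sub_sub_sub_cancel_right, mul_sub, op_inv_mul, op_mul]
      rw [h2, norm_op_mul_left]
      refine (norm_sub_le _ _).trans ?_
      linarith
  refine ⟨r / 4, by positivity, fun x y hx hy hyx η hη => ?_⟩
  obtain ⟨s, hsG, hs⟩ := htr x0 x hx0 hx
  have hsx : s⁻¹ x = x0 := by rw [← hs, happ']
  obtain ⟨T, hTG, hT1, hT2⟩ := key (s⁻¹ y) (by rw [hn', hy]) (by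
    rw [← hsx, ← map_sub, hn']; exact hyx) η hη
  refine ⟨s * T * s⁻¹, G.mul_mem (G.mul_mem hsG hTG) (G.inv_mem hsG), ?_, ?_⟩
  · show ‖s (T (s⁻¹ x)) - y‖ ≤ η
    rw [hsx]
    have h2 : s (T x0) - y = s (T x0 - s⁻¹ y) := by rw [map_sub, happ]
    rw [h2, s.norm_map]
    exact hT1
  · have h2 : op (s * T * s⁻¹) - 1 = op s * (op T - 1) * op s⁻¹ := by
      rw [mul_sub, sub_mul, mul_one, op_mul_inv, op_mul, op_mul]
    rw [h2, norm_op_mul_right, norm_op_mul_left]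
    exact hT2

end Pool.Agent.H821.Rot
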