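import Pool.Agent.H821.Rot.Kadec
import Pool.Agent.H821.Rot.NormOpen
import Pool.Agent.Helper902.NABP
import Pool.Agent.Y278.Rot.Main

/-!
# Compact perturbations of the identity: the dual space is separable

If the isometries `T` with `T - 1` compact act transitively on the unit sphere of a separable Banach
space, then the dual space is separable, and the group of these isometries is separable for the
operator norm.
-/

set_option autoImplicit false
set_option linter.unusedSectionVars false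
set_option linter.unusedVariables false

namespace Pool.Agent.H821.Rot

open TopologicalSpace Metric Filter Topology

variable {E : Type} [NormedAddCommGroup E] [NormedSpace ℝ E]

/-- a separable transitive norm is smooth -/
theorem unique_support [CompleteSpace E] [SeparableSpace E]
    (hG : ∀ x y : E, ‖x‖ = 1 → ‖y‖ = 1 → ∃ T : E ≃ₗᵢ[ℝ] E, T x = y) {x : E} (hx : ‖x‖ = 1)
    (g h : StrongDual ℝ E) (hg : ‖g‖ ≤ 1) (hgx : g x = 1) (hh : ‖h‖ ≤ 1) (hhx : h x = 1) :
    g = h := by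
  obtain ⟨T, f, V, B, hN, hV, hE⟩ := Pool.Agent.Y278.Rot.transitive_expand hG (denseSeq E) hx
  have hd : Dense (V : Set E) := by
    have h1 : DenseRange (fun n => T (denseSeq E n)) :=
      T.toHomeomorph.surjective.denseRange.comp (denseRange_denseSeq E) T.continuous
    refine h1.mono ?_
    rintro _ ⟨n, rfl⟩
    exact hV n
  have key : ∀ g : StrongDual ℝ E, ‖g‖ ≤ 1 → g x = 1 → g = f := by
    intro g hg hgx
    have hle : ∀ w ∈ V, g w ≤ f w := by
      intro w hw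
      have h1 : Tendsto (fun t => Pool.Agent.Y278.Rot.ph x f t w) (𝓝[≠] 0) (𝓝 (B ⟨w, hw⟩ ⟨w, hw⟩)) :=
        hE.2 ⟨w, hw⟩
      have h2 : Tendsto (fun t => t * Pool.Agent.Y278.Rot.ph x f t w) (𝓝[>] 0) (𝓝 0) := by
        have h3 : Tendsto (fun t : ℝ => t) (𝓝[>] 0) (𝓝 0) := nhdsWithin_le_nhds
        have h4 := h3.mul (h1.mono_left (nhdsWithin_mono 0 (fun t ht => ne_of_gt ht)))
        rwa [zero_mul] at h4
      have h5 : ∀ᶠ t in 𝓝[>] (0 : ℝ), g w - f w ≤ t * Pool.Agent.Y278.Rot.ph x f t w := by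
        filter_upwards [self_mem_nhdsWithin] with t ht
        have ht : 0 < t := ht
        have h6 : g (x + t • w) ≤ ‖x + t • w‖ := by
          refine (le_abs_self _).trans ?_
          have := g.le_opNorm (x + t • w)
          rw [Real.norm_eq_abs] at this
          refine this.trans ?_
          calc ‖g‖ * ‖x + t • w‖ ≤ 1 * ‖x + t • w‖ :=
                mul_le_mul_of_nonneg_right hg (norm_nonneg _)
            _ = _ := one_mul _
        rw [map_add, map_smul, hgx, smul_eq_mul] at h6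
        unfold Pool.Agent.Y278.Rot.ph
        rw [hx]
        rw [mul_div_assoc', le_div_iff₀ (by positivity)]
        nlinarith
      have h7 := ge_of_tendsto h2 h5
      linarith
    have heq : ∀ w ∈ V, g w = f w := by
      intro w hw
      apply le_antisymm (hle w hw)
      have := hle (-w) (V.neg_mem hw)
      rw [map_neg, map_neg] at this
      linarith
    ext y
    have h8 : Set.EqOn g f (closure (V : Set E)) :=
      Set.EqOn.closure heq g.continuous f.continuous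
    exact h8 (hd y)
  rw [key g hg hgx, key h hh hhx]

/-- bounded weak* null families are mapped to norm null families by adjoints of compact
operators -/
theorem compact_dual {ι : Type*} {l : Filter ι} (η : ι → StrongDual ℝ E) {R : ℝ}
    (hR : ∀ i, ‖η i‖ ≤ R) (hw : ∀ y, Tendsto (fun i => η i y) l (𝓝 0)) (K : E →L[ℝ] E)
    (hK : IsCompactOperator K) : Tendsto (fun i => ‖(η i).comp K‖) l (𝓝 0) := by
  have hR0 : 0 ≤ R ∨ IsEmpty ι := by
    by_cases h : Nonempty ι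
    · obtain ⟨i⟩ := h
      exact Or.inl ((norm_nonneg _).trans (hR i))
    · exact Or.inr (not_nonempty_iff.1 h)
  rcases hR0 with hR0 | hemp
  swap
  · have : l = ⊥ := Filter.filter_eq_bot_of_isEmpty l
    rw [this]; exact tendsto_bot
  rw [Metric.tendsto_nhds]
  intro ε hε
  have hc : IsCompact (closure (K '' closedBall (0 : E) 1)) :=
    IsCompactOperator.isCompact_closure_image_closedBall (𝕜₁ := ℝ) (f := (K : E →ₗ[ℝ] E)) hK 1
  obtain ⟨t, htf, ht⟩ := Metric.totallyBounded_iff.1 hc.totallyBounded (ε / (4 * (R + 1)))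
    (by positivity)
  have h1 : ∀ᶠ i in l, ∀ y ∈ t, |η i y| ≤ ε / 4 := by
    rw [Filter.eventually_all_finite htf]
    intro y hy
    have h2 := (hw y).abs
    rw [abs_zero] at h2
    filter_upwards [h2.eventually (gt_mem_nhds (by positivity : (0 : ℝ) < ε / 4))] with i hi
    exact hi.le
  filter_upwards [h1] with i hi
  rw [Real.dist_eq, sub_zero, abs_of_nonneg (norm_nonneg _)]
  have h2 : ‖(η i).comp K‖ ≤ ε / 2 := by
    refine ContinuousLinearMap.opNorm_le_of_unit_norm (by positivity) fun x hx => ?_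
    have h3 : K x ∈ ⋃ y ∈ t, ball y (ε / (4 * (R + 1))) :=
      ht (subset_closure ⟨x, mem_closedBall_zero_iff.2 hx.le, rfl⟩)
    obtain ⟨y, hy, h4⟩ := Set.mem_iUnion₂.1 h3
    rw [mem_ball, dist_eq_norm] at h4
    have h5 : (η i).comp K x = η i y + η i (K x - y) := by
      rw [map_sub]; simp
    rw [h5, Real.norm_eq_abs]
    refine (abs_add_le _ _).trans ?_
    have h6 : |η i (K x - y)| ≤ R * (ε / (4 * (R + 1))) := by
      have := (η i).le_opNorm (K x - y)
      rw [Real.norm_eq_abs] at this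
      refine this.trans (mul_le_mul (hR i) h4.le (norm_nonneg _) hR0)
    have h7 : R * (ε / (4 * (R + 1))) ≤ ε / 4 := by
      rw [mul_div_assoc', div_le_div_iff₀ (by positivity) (by positivity)]
      nlinarith
    have := hi y hy
    linarith
  linarith

/-- The limits of `‖f + η i‖` do not depend on the unit functional `f`. -/
theorem lam_const [CompleteSpace E] [SeparableSpace E]
    (hG : ∀ x y : E, ‖x‖ = 1 → ‖y‖ = 1 → ∃ T : E ≃ₗᵢ[ℝ] E,
      IsCompactOperator (fun z : E => T z - z) ∧ T x = y)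
    {ι : Type*} (U : Ultrafilter ι) (η : ι → StrongDual ℝ E) {R : ℝ}
    (hR : ∀ i, ‖η i‖ ≤ R) (hw : ∀ y, Tendsto (fun i => η i y) U (𝓝 0)) (f g : StrongDual ℝ E)
    (hf : ‖f‖ = 1) (hg : ‖g‖ = 1) {l : ℝ} (hl : Tendsto (fun i => ‖f + η i‖) U (𝓝 l)) :
    Tendsto (fun i => ‖g + η i‖) U (𝓝 l) := by
  have hG' : ∀ x y : E, ‖x‖ = 1 → ‖y‖ = 1 → ∃ T : E ≃ₗᵢ[ℝ] E, T x = y := fun x y hx hy => by
    obtain ⟨T, -, h⟩ := hG x y hx hy
    exact ⟨T, h⟩
  -- norm attaining functionals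
  have h1 : ∀ f g : StrongDual ℝ E, ‖f‖ = 1 → ‖g‖ = 1 → (∃ x, ‖x‖ = 1 ∧ f x = 1) →
      (∃ y, ‖y‖ = 1 ∧ g y = 1) →
      Tendsto (fun i => ‖g + η i‖ - ‖f + η i‖) U (𝓝 0) := by
    rintro f g hf hg ⟨x, hx, hfx⟩ ⟨y, hy, hgy⟩
    obtain ⟨T, hT, hTx⟩ := hG x y hx hy
    have hTn : ∀ h : StrongDual ℝ E, ‖h.comp (op T)‖ = ‖h‖ := by
      intro h
      apply le_antisymm
      · refine ContinuousLinearMap.opNorm_le_bound _ (norm_nonneg _) fun z => ?_
        show ‖h (T z)‖ ≤ _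
        refine (h.le_opNorm _).trans ?_
        rw [T.norm_map]
      · refine ContinuousLinearMap.opNorm_le_bound _ (norm_nonneg _) fun z => ?_
        have h2 : h z = (h.comp (op T)) (T.symm z) := by
          show h z = h (T (T.symm z))
          rw [T.apply_symm_apply]
        rw [h2]
        refine ((h.comp (op T)).le_opNorm _).trans ?_
        rw [T.symm.norm_map]
    have hfg : g.comp (op T) = f := by
      refine unique_support hG' hx _ _ (by rw [hTn, hg]) ?_ hf.le hfx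
      show g (T x) = 1
      rw [hTx, hgy]
    have h2 := compact_dual η hR hw (op T - 1) hT
    refine squeeze_zero_norm (fun i => ?_) h2
    have h3 : ‖g + η i‖ = ‖f + (η i).comp (op T)‖ := by
      rw [← hTn (g + η i), ← hfg]
      rfl
    rw [h3, Real.norm_eq_abs]
    refine (abs_norm_sub_norm_le _ _).trans (le_of_eq ?_)
    congr 1
    ext z
    simp
  -- general functionals
  have h2 : ∀ f : StrongDual ℝ E, ‖f‖ = 1 → ∀ ε : ℝ, 0 < ε → ∃ f' : StrongDual ℝ E, ‖f'‖ = 1 ∧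
      (∃ x, ‖x‖ = 1 ∧ f' x = 1) ∧ ‖f' - f‖ ≤ ε := by
    intro f hf ε hε
    set δ : ℝ := min (ε / 2) (1 / 2) with hδ
    have hδ0 : 0 < δ := lt_min (by positivity) (by norm_num)
    obtain ⟨Φ, hΦ, y, hy, hΦy⟩ := Pool.Agent.Helper902.NA.bishop_phelps f δ hδ0
    have h3 : |‖Φ‖ - 1| ≤ δ := by
      rw [← hf]
      exact (abs_norm_sub_norm_le _ _).trans hΦ
    have hδ1 : δ ≤ 1 / 2 := min_le_right _ _
    have hδ2 : δ ≤ ε / 2 := min_le_left _ _
    rw [abs_le] at h3
    have hΦ0 : 0 < ‖Φ‖ := by linarith [h3.1]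
    have hy1 : ‖y‖ = 1 := by
      apply le_antisymm hy
      have h4 := Φ.le_opNorm y
      rw [hΦy, norm_norm] at h4
      nlinarith
    refine ⟨‖Φ‖⁻¹ • Φ, ?_, ⟨y, hy1, ?_⟩, ?_⟩
    · rw [norm_smul, norm_inv, norm_norm, inv_mul_cancel₀ hΦ0.ne']
    · show ‖Φ‖⁻¹ * Φ y = 1
      rw [hΦy, inv_mul_cancel₀ hΦ0.ne']
    · have h5 : ‖‖Φ‖⁻¹ • Φ - Φ‖ ≤ δ := by
        have h6 : ‖Φ‖⁻¹ • Φ - Φ = (‖Φ‖⁻¹ - 1) • Φ := by
          ext z
          show ‖Φ‖⁻¹ * Φ z - Φ z = (‖Φ‖⁻¹ - 1) * Φ z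
          ring
        rw [h6, norm_smul, Real.norm_eq_abs]
        have h7 : |‖Φ‖⁻¹ - 1| * ‖Φ‖ = |1 - ‖Φ‖| := by
          rw [← abs_of_pos hΦ0, ← abs_mul, abs_of_pos hΦ0, sub_mul, inv_mul_cancel₀ hΦ0.ne',
            one_mul]
        rw [h7, abs_le]
        constructor <;> linarith [h3.1, h3.2]
      calc ‖‖Φ‖⁻¹ • Φ - f‖ = ‖(‖Φ‖⁻¹ • Φ - Φ) + (Φ - f)‖ := by congr 1; abel
        _ ≤ δ + δ := (norm_add_le _ _).trans (add_le_add h5 hΦ)
        _ ≤ ε := by linarith
  rw [Metric.tendsto_nhds]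
  intro ε hε
  obtain ⟨f', hf', hf'a, hff'⟩ := h2 f hf (ε / 4) (by positivity)
  obtain ⟨g', hg', hg'a, hgg'⟩ := h2 g hg (ε / 4) (by positivity)
  have h3 := h1 f' g' hf' hg' hf'a hg'a
  rw [Metric.tendsto_nhds] at h3 hl
  filter_upwards [h3 (ε / 4) (by positivity), hl (ε / 4) (by positivity)] with i h4 h5
  rw [Real.dist_eq, sub_zero] at h4
  rw [Real.dist_eq] at h5 ⊢
  have h6 : |‖g + η i‖ - ‖g' + η i‖| ≤ ε / 4 := by
    refine (abs_norm_sub_norm_le _ _).trans ?_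
    rw [add_sub_add_right_eq_sub, norm_sub_rev]
    exact hgg'
  have h7 : |‖f' + η i‖ - ‖f + η i‖| ≤ ε / 4 := by
    refine (abs_norm_sub_norm_le _ _).trans ?_
    rw [add_sub_add_right_eq_sub]
    exact hff'
  rw [abs_lt] at h4 h5 ⊢
  rw [abs_le] at h6 h7
  constructor <;> linarith [h4.1, h4.2, h5.1, h5.2, h6.1, h6.2, h7.1, h7.2]

/-- on the dual sphere weak* convergent sequences converge in norm -/
theorem dual_kadec [CompleteSpace E] [SeparableSpace E]
    (hG : ∀ x y : E, ‖x‖ = 1 → ‖y‖ = 1 → ∃ T : E ≃ₗᵢ[ℝ] E,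
      IsCompactOperator (fun z : E => T z - z) ∧ T x = y)
    (f : StrongDual ℝ E) (hf : ‖f‖ = 1) (h : ℕ → StrongDual ℝ E) (hh : ∀ n, ‖h n‖ = 1)
    (hw : ∀ y, Tendsto (fun n => h n y) atTop (𝓝 (f y))) :
    Tendsto (fun n => ‖h n - f‖) atTop (𝓝 0) := by
  have hw' : ∀ y, Tendsto (fun n => (h n - f) y) atTop (𝓝 0) := by
    intro y
    have := (hw y).sub_const (f y)
    rw [sub_self] at this
    exact this
  refine null_of_star (fun n => h n - f) hw' fun ψ hψ ε hε => ?_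
  by_contra hcon
  rw [Filter.not_eventually] at hcon
  obtain ⟨U, hU, hUS⟩ : ∃ U : Ultrafilter ℕ, (U : Filter ℕ) ≤ atTop ∧
      {n | ¬ ‖ψ + (h n - f)‖ ≤ 1 + ε} ∈ U := by
    have : (atTop ⊓ 𝓟 {n | ¬ ‖ψ + (h n - f)‖ ≤ 1 + ε}).NeBot := by
      rw [Filter.inf_principal_neBot_iff]
      intro s hs
      obtain ⟨n, hn1, hn2⟩ := (hcon.and_eventually hs).exists
      exact ⟨n, hn2, hn1⟩
    refine ⟨Ultrafilter.of (atTop ⊓ 𝓟 {n | ¬ ‖ψ + (h n - f)‖ ≤ 1 + ε}),
      (Ultrafilter.of_le _).trans inf_le_left, ?_⟩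
    exact (Ultrafilter.of_le _).trans inf_le_right (mem_principal_self _)
  have hR : ∀ n, ‖h n - f‖ ≤ 2 := fun n => (norm_sub_le _ _).trans (by rw [hh, hf]; norm_num)
  have hwU : ∀ y, Tendsto (fun n => (h n - f) y) U (𝓝 0) := fun y => (hw' y).mono_left hU
  have hf1 : Tendsto (fun n => ‖f + (h n - f)‖) U (𝓝 1) := by
    refine tendsto_const_nhds.congr fun n => ?_
    rw [add_sub_cancel, hh]
  have hall : ∀ g : StrongDual ℝ E, ‖g‖ = 1 → Tendsto (fun n => ‖g + (h n - f)‖) U (𝓝 1) :=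
    fun g hg => lam_const hG U (fun n => h n - f) hR hwU f g hf hg hf1
  -- write `ψ` as a convex combination of unit functionals
  obtain ⟨g, r, hg, hr0, hr1, hψg⟩ : ∃ (g : StrongDual ℝ E) (r : ℝ), ‖g‖ = 1 ∧ 0 ≤ r ∧ r ≤ 1 ∧
      ψ = r • g := by
    by_cases h0 : ψ = 0
    · exact ⟨f, 0, hf, le_rfl, zero_le_one, by rw [h0, zero_smul]⟩
    · have hn : ‖ψ‖ ≠ 0 := norm_ne_zero_iff.2 h0
      refine ⟨‖ψ‖⁻¹ • ψ, ‖ψ‖, ?_, norm_nonneg _, hψ, ?_⟩
      · rw [norm_smul, norm_inv, norm_norm, inv_mul_cancel₀ hn]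
      · rw [smul_smul, mul_inv_cancel₀ hn, one_smul]
  have hlim : Tendsto (fun n => (1 + r) / 2 * ‖g + (h n - f)‖ + (1 - r) / 2 * ‖-g + (h n - f)‖) U
      (𝓝 ((1 + r) / 2 * 1 + (1 - r) / 2 * 1)) :=
    ((hall g hg).const_mul _).add ((hall (-g) (by rw [norm_neg, hg])).const_mul _)
  have h1 : (1 + r) / 2 * 1 + (1 - r) / 2 * 1 = 1 := by ring
  rw [h1] at hlim
  have h2 : ∀ᶠ n in (U : Filter ℕ), ‖ψ + (h n - f)‖ ≤ 1 + ε := by
    filter_upwards [hlim.eventually (gt_mem_nhds (by linarith : (1 : ℝ) < 1 + ε))] with n hn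
    refine le_trans ?_ hn.le
    have h3 : ψ + (h n - f) = ((1 + r) / 2) • (g + (h n - f)) +
        ((1 - r) / 2) • (-g + (h n - f)) := by
      rw [hψg]; module
    rw [h3]
    refine (norm_add_le _ _).trans ?_
    rw [norm_smul, norm_smul, Real.norm_eq_abs, Real.norm_eq_abs, abs_of_nonneg (by linarith),
      abs_of_nonneg (by linarith)]
  have hUS' : ∀ᶠ n in (U : Filter ℕ), ¬ ‖ψ + (h n - f)‖ ≤ 1 + ε := hUS
  obtain ⟨n, hn1, hn2⟩ := (hUS'.and h2).exists
  exact hn1 hn2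

end Pool.Agent.H821.Rot
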