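import Pool.Agent.H821.Rot.NormOpen

/-! # Exact version: successive approximations -/

set_option autoImplicit false
set_option linter.unusedSectionVars false

namespace Pool.Agent.H821.Rot

open TopologicalSpace Metric Filter Topology

variable {E : Type*} [NormedAddCommGroup E] [NormedSpace ℝ E]

/-- norm-limits of isometries whose inverses converge -/
theorem limit_isometry [CompleteSpace E] (T : ℕ → E ≃ₗᵢ[ℝ] E) (κ : ℝ)
    (h : ∀ n, ‖op (T (n + 1)) - op (T n)‖ ≤ κ / 2 / 2 ^ n)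
    (h' : ∀ n, ‖op (T (n + 1))⁻¹ - op (T n)⁻¹‖ ≤ κ / 2 / 2 ^ n) :
    ∃ L : E ≃ₗᵢ[ℝ] E, Tendsto (fun n => op (T n)) atTop (𝓝 (op L)) := by
  have c1 : CauchySeq fun n => op (T n) := by
    refine cauchySeq_of_le_geometric_two (C := κ) fun n => ?_
    rw [dist_comm, dist_eq_norm]
    exact h n
  have c2 : CauchySeq fun n => op (T n)⁻¹ := by
    refine cauchySeq_of_le_geometric_two (C := κ) fun n => ?_
    rw [dist_comm, dist_eq_norm]
    exact h' n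
  obtain ⟨L, hL⟩ := cauchySeq_tendsto_of_complete c1
  obtain ⟨M, hM⟩ := cauchySeq_tendsto_of_complete c2
  have e1 : L * M = 1 := by
    refine tendsto_nhds_unique (hL.mul hM) ?_
    simp only [op_mul_inv]
    exact tendsto_const_nhds
  have e2 : M * L = 1 := by
    refine tendsto_nhds_unique (hM.mul hL) ?_
    simp only [op_inv_mul]
    exact tendsto_const_nhds
  have hp : ∀ x, Tendsto (fun n => T n x) atTop (𝓝 (L x)) := fun x =>
    ((ContinuousLinearMap.apply ℝ E x).continuous.tendsto L).comp hL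
  have hn : ∀ x, ‖L x‖ = ‖x‖ := by
    intro x
    refine tendsto_nhds_unique (hp x).norm ?_
    simp only [LinearIsometryEquiv.norm_map]
    exact tendsto_const_nhds
  let e : E ≃ₗ[ℝ] E := LinearEquiv.ofLinear (L : E →ₗ[ℝ] E) (M : E →ₗ[ℝ] E)
    (by ext x; exact congrArg (fun a : E →L[ℝ] E => a x) e1)
    (by ext x; exact congrArg (fun a : E →L[ℝ] E => a x) e2)
  let I : E ≃ₗᵢ[ℝ] E := ⟨e, hn⟩
  refine ⟨I, ?_⟩
  have : op I = L := by ext x; rfl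
  rw [this]
  exact hL

/-- exact micro-transitivity in the operator norm -/
theorem open_norm [CompleteSpace E] (G : Subgroup (E ≃ₗᵢ[ℝ] E))
    (hsep : IsSeparable (ops (G : Set (E ≃ₗᵢ[ℝ] E))))
    (htr : ∀ x y : E, ‖x‖ = 1 → ‖y‖ = 1 → ∃ T ∈ G, T x = y) {κ : ℝ} (hκ : 0 < κ) :
    ∃ t : ℝ, 0 < t ∧ ∀ x y : E, ‖x‖ = 1 → ‖y‖ = 1 → ‖y - x‖ ≤ t →
      ∃ T : E ≃ₗᵢ[ℝ] E, T x = y ∧ ‖op T - 1‖ ≤ κ := by
  have hpos : ∀ n : ℕ, 0 < κ / 2 / 2 ^ n := fun n => by positivity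
  choose τ hτ0 hτ using fun n : ℕ => near_open_norm G hsep htr (hpos n)
  refine ⟨τ 0, hτ0 0, fun x y hx hy hyx => ?_⟩
  -- one step
  have step : ∀ (n : ℕ) (S : E ≃ₗᵢ[ℝ] E), S ∈ G → ‖S x - y‖ ≤ τ n →
      ∃ S' : E ≃ₗᵢ[ℝ] E, S' ∈ G ∧ ‖S' x - y‖ ≤ τ (n + 1) ∧ ‖S' x - y‖ ≤ (1 / 2) ^ n ∧
        ‖op S' - op S‖ ≤ κ / 2 / 2 ^ n ∧ ‖op S'⁻¹ - op S⁻¹‖ ≤ κ / 2 / 2 ^ n := by
    intro n S hS h1
    obtain ⟨k, hkG, hk1, hk2⟩ := hτ n (S x) y (by rw [S.norm_map, hx]) hy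
      (by rw [norm_sub_rev]; exact h1) (min (τ (n + 1)) ((1 / 2) ^ n))
      (lt_min (hτ0 _) (by positivity))
    refine ⟨k * S, G.mul_mem hkG hS, hk1.trans (min_le_left _ _), hk1.trans (min_le_right _ _),
      ?_, ?_⟩
    · have h2 : op (k * S) - op S = (op k - 1) * op S := by
        rw [sub_mul, one_mul, op_mul]
      rw [h2, norm_op_mul_right]
      exact hk2
    · have h2 : op (k * S)⁻¹ - op S⁻¹ = op S⁻¹ * (op k⁻¹ - 1) := by
        rw [mul_sub, mul_one, mul_inv_rev, op_mul]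
      rw [h2, norm_op_mul_left, norm_op_inv_sub_one]
      exact hk2
  -- the sequence
  let P : ℕ → Type _ := fun n => {S : E ≃ₗᵢ[ℝ] E // S ∈ G ∧ ‖S x - y‖ ≤ τ n}
  let nx : ∀ n, P n → P (n + 1) := fun n S =>
    ⟨(step n S.1 S.2.1 S.2.2).choose, (step n S.1 S.2.1 S.2.2).choose_spec.1,
      (step n S.1 S.2.1 S.2.2).choose_spec.2.1⟩
  have hnx : ∀ n (S : P n), ‖(nx n S).1 x - y‖ ≤ (1 / 2) ^ n ∧
      ‖op (nx n S).1 - op S.1‖ ≤ κ / 2 / 2 ^ n ∧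
      ‖op (nx n S).1⁻¹ - op S.1⁻¹‖ ≤ κ / 2 / 2 ^ n := fun n S =>
    (step n S.1 S.2.1 S.2.2).choose_spec.2.2
  let p0 : P 0 := ⟨1, G.one_mem, by
    show ‖x - y‖ ≤ τ 0
    rw [norm_sub_rev]; exact hyx⟩
  let q : ∀ n, P n := fun n => Nat.rec p0 (fun n S => nx n S) n
  let T : ℕ → E ≃ₗᵢ[ℝ] E := fun n => (q n).1
  have hT0 : T 0 = 1 := rfl
  have hq : ∀ n, q (n + 1) = nx n (q n) := fun n => rfl
  have hT : ∀ n, ‖T (n + 1) x - y‖ ≤ (1 / 2) ^ n ∧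
      ‖op (T (n + 1)) - op (T n)‖ ≤ κ / 2 / 2 ^ n ∧
      ‖op (T (n + 1))⁻¹ - op (T n)⁻¹‖ ≤ κ / 2 / 2 ^ n := fun n => hnx n (q n)
  obtain ⟨L, hL⟩ := limit_isometry T κ (fun n => (hT n).2.1) (fun n => (hT n).2.2)
  have hp : ∀ x, Tendsto (fun n => T n x) atTop (𝓝 (L x)) := fun x =>
    ((ContinuousLinearMap.apply ℝ E x).continuous.tendsto (op L)).comp hL
  refine ⟨L, ?_, ?_⟩
  · have h1 : Tendsto (fun n => T (n + 1) x - y) atTop (𝓝 (L x - y)) :=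
      ((hp x).comp (tendsto_add_atTop_nat 1)).sub_const y
    have h2 : Tendsto (fun n => T (n + 1) x - y) atTop (𝓝 0) := by
      refine squeeze_zero_norm (fun n => (hT n).1) ?_
      exact tendsto_pow_atTop_nhds_zero_of_lt_one (by norm_num) (by norm_num)
    exact sub_eq_zero.1 (tendsto_nhds_unique h1 h2)
  · have h1 : ∀ n, ‖op (T n) - 1‖ ≤ κ * (1 - (1 / 2) ^ n) := by
      intro n
      induction n with
      | zero => rw [hT0, op_one]; simp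
      | succ n ih =>
        calc ‖op (T (n + 1)) - 1‖ = ‖(op (T (n + 1)) - op (T n)) + (op (T n) - 1)‖ := by
              congr 1; abel
          _ ≤ κ / 2 / 2 ^ n + κ * (1 - (1 / 2) ^ n) :=
              (norm_add_le _ _).trans (add_le_add (hT n).2.1 ih)
          _ = κ * (1 - (1 / 2) ^ (n + 1)) := by
              rw [pow_succ, one_div, inv_pow]; ring
    have h2 : Tendsto (fun n => ‖op (T n) - 1‖) atTop (𝓝 ‖op L - 1‖) := (hL.sub_const 1).norm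
    refine le_of_tendsto h2 (Eventually.of_forall fun n => (h1 n).trans ?_)
    have : (0 : ℝ) ≤ (1 / 2) ^ n := by positivity
    nlinarith

end Pool.Agent.H821.Rot
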