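import Mathlib

/-!
# A Baire category lemma for weak* null sequences

If `η n` is weak* null and `‖ψ + η n‖ ≤ 1 + ε` for all large `n`, for every `ψ` in the unit ball of
the dual and every `ε > 0`, then `η n` tends to zero in norm.
-/

set_option autoImplicit false
set_option linter.unusedSectionVars false
set_option linter.unusedVariables false

namespace Pool.Agent.H821.Rot

open TopologicalSpace Metric Filter Topology

variable {E : Type} [NormedAddCommGroup E] [NormedSpace ℝ E]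

/-- the dual ball in the weak* topology -/
abbrev DB (E : Type) [NormedAddCommGroup E] [NormedSpace ℝ E] : Type :=
  (WeakDual.toStrongDual ⁻¹' (closedBall (0 : StrongDual ℝ E) 1) : Set (WeakDual ℝ E))

instance : CompactSpace (DB E) :=
  isCompact_iff_compactSpace.1 (WeakDual.isCompact_closedBall (0 : StrongDual ℝ E) 1)

/-- an element of the dual ball -/
noncomputable def mkDB (ψ : StrongDual ℝ E) (h : ‖ψ‖ ≤ 1) : DB E :=
  ⟨StrongDual.toWeakDual ψ, by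
    show ψ ∈ closedBall (0 : StrongDual ℝ E) 1
    exact mem_closedBall_zero_iff.2 h⟩

/-- the functional -/
noncomputable def fn (ψ : DB E) : StrongDual ℝ E := WeakDual.toStrongDual ψ.1

lemma fn_norm (ψ : DB E) : ‖fn ψ‖ ≤ 1 := mem_closedBall_zero_iff.1 ψ.2

@[simp] lemma fn_mk (ψ : StrongDual ℝ E) (h : ‖ψ‖ ≤ 1) : fn (mkDB ψ h) = ψ := rfl

lemma fn_cont (y : E) : Continuous fun ψ : DB E => fn ψ y :=
  (WeakDual.eval_continuous y).comp continuous_subtype_val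

lemma DB_tendsto {ι : Type*} {l : Filter ι} {f : ι → DB E} {g : DB E} :
    Tendsto f l (𝓝 g) ↔ ∀ y, Tendsto (fun i => fn (f i) y) l (𝓝 (fn g y)) := by
  rw [tendsto_subtype_rng]
  exact tendsto_iff_forall_eval_tendsto_topDualPairing

/-- one step -/
lemma baire_step (x : ℕ → E) (η : ℕ → StrongDual ℝ E) {a : ℝ} (ha : 0 < a)
    (hη : ∀ n, a ≤ η n (x n)) (hx : ∀ n, ‖x n‖ ≤ 1)
    (hw : ∀ y, Tendsto (fun n => η n y) atTop (𝓝 0))
    (hstar : ∀ ψ : StrongDual ℝ E, ‖ψ‖ ≤ 1 → ∀ ε : ℝ, 0 < ε → ∀ᶠ n in atTop, ‖ψ + η n‖ ≤ 1 + ε)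
    {θ : ℝ} (hθ : θ ≤ 1)
    (h : ∃ O : Set (DB E), IsOpen O ∧ O.Nonempty ∧ ∃ m : ℕ, ∀ ψ ∈ O, ∀ n ≥ m, |fn ψ (x n)| ≤ θ) :
    ∃ O : Set (DB E), IsOpen O ∧ O.Nonempty ∧ ∃ m : ℕ, ∀ ψ ∈ O, ∀ n ≥ m,
      |fn ψ (x n)| ≤ θ - a / 2 := by
  obtain ⟨O, hO, hOne, m, hm⟩ := h
  -- pointwise improvement
  have key : ∀ ψ ∈ O, ∃ k : ℕ, ∀ n ≥ k, |fn ψ (x n)| ≤ θ - a / 2 := by
    intro ψ hψ
    have hψn := fn_norm ψ
    -- choose `ε`
    have hsm : ∀ ε : ℝ, 0 ≤ ε → ∀ φ : StrongDual ℝ E, ‖φ‖ ≤ 1 + ε → ‖(1 + ε)⁻¹ • φ‖ ≤ 1 := by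
      intro ε hε φ hφ
      rw [norm_smul, norm_inv, Real.norm_eq_abs, abs_of_pos (by linarith)]
      rw [inv_mul_le_iff₀ (by linarith)]
      linarith
    let g : Set.Ici (0 : ℝ) → DB E := fun ε =>
      mkDB ((1 + (ε : ℝ))⁻¹ • fn ψ) (hsm ε ε.2 _ (by have : (0 : ℝ) ≤ ε := ε.2; linarith))
    let z0 : Set.Ici (0 : ℝ) := ⟨0, Set.mem_Ici.2 le_rfl⟩
    have hg : Tendsto g (𝓝 z0) (𝓝 ψ) := by
      rw [DB_tendsto]
      intro y
      have h1 : Continuous fun ε : Set.Ici (0 : ℝ) => (1 + (ε : ℝ))⁻¹ * fn ψ y := by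
        refine Continuous.mul (Continuous.inv₀ (by fun_prop) fun ε => ?_) continuous_const
        have : (0 : ℝ) ≤ ε := ε.2
        positivity
      have h2 := h1.tendsto z0
      have h3 : (1 + ((z0 : Set.Ici (0 : ℝ)) : ℝ))⁻¹ * fn ψ y = fn ψ y := by
        show (1 + (0 : ℝ))⁻¹ * fn ψ y = fn ψ y
        rw [add_zero, inv_one, one_mul]
      rw [h3] at h2
      exact h2
    have h1 := hg.eventually (hO.mem_nhds hψ)
    obtain ⟨r, hr, hr2⟩ := Metric.eventually_nhds_iff.1 h1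
    set ε : ℝ := min (r / 2) (a / 2) with hε
    have hε0 : 0 < ε := lt_min (by positivity) (by positivity)
    have h2 : g ⟨ε, hε0.le⟩ ∈ O := by
      refine hr2 ?_
      rw [Subtype.dist_eq, Real.dist_eq]
      show |ε - 0| < r
      rw [sub_zero, abs_of_pos hε0]
      have := min_le_left (r / 2) (a / 2)
      linarith
    -- the perturbed functionals
    have main : ∀ σ : ℝ, (∀ᶠ n in atTop, ‖fn ψ + σ • η n‖ ≤ 1 + ε) →
        ∀ᶠ n in atTop, |(fn ψ + σ • η n) (x n)| ≤ (1 + ε) * θ := by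
      intro σ hσ
      classical
      let p : ℕ → DB E := fun n =>
        if hn : ‖fn ψ + σ • η n‖ ≤ 1 + ε then
          mkDB ((1 + ε)⁻¹ • (fn ψ + σ • η n)) (hsm ε hε0.le _ hn)
        else g ⟨ε, hε0.le⟩
      have hp : ∀ᶠ n in atTop, ∀ y, fn (p n) y = (1 + ε)⁻¹ * (fn ψ y + σ * η n y) := by
        filter_upwards [hσ] with n hn y
        simp only [p, dif_pos hn]
        rfl
      have hpt : Tendsto p atTop (𝓝 (g ⟨ε, hε0.le⟩)) := by
        rw [DB_tendsto]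
        intro y
        have h3 : Tendsto (fun n => (1 + ε)⁻¹ * (fn ψ y + σ * η n y)) atTop
            (𝓝 ((1 + ε)⁻¹ * (fn ψ y + σ * 0))) :=
          (((hw y).const_mul σ).const_add _).const_mul _
        rw [mul_zero, add_zero] at h3
        refine (h3.congr' ?_)
        filter_upwards [hp] with n hn
        exact (hn y).symm
      filter_upwards [hpt.eventually (hO.mem_nhds h2), hp, eventually_ge_atTop m] with n hn1 hn2 hn3
      have h4 := hm _ hn1 n hn3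
      rw [hn2 (x n), abs_mul, abs_inv, abs_of_pos (by linarith : 0 < 1 + ε),
        inv_mul_le_iff₀ (by linarith)] at h4
      exact h4
    have m1 := main 1 (by
      filter_upwards [hstar (fn ψ) hψn ε hε0] with n hn
      rwa [one_smul])
    have m2 := main (-1) (by
      filter_upwards [hstar (-fn ψ) (by rw [norm_neg]; exact hψn) ε hε0] with n hn
      have e : fn ψ + (-1 : ℝ) • η n = -(-fn ψ + η n) := by
        ext y
        show fn ψ y + (-1) * η n y = -(-fn ψ y + η n y)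
        ring
      rw [e, norm_neg]
      exact hn)
    obtain ⟨k, hk⟩ := eventually_atTop.1 (m1.and m2)
    refine ⟨k, fun n hn => ?_⟩
    obtain ⟨h5, h6⟩ := hk n hn
    have h7 : (fn ψ + (1 : ℝ) • η n) (x n) = fn ψ (x n) + η n (x n) := by
      rw [one_smul]; rfl
    have h8 : (fn ψ + (-1 : ℝ) • η n) (x n) = fn ψ (x n) - η n (x n) := by
      show fn ψ (x n) + (-1) * η n (x n) = fn ψ (x n) - η n (x n)
      ring
    rw [h7] at h5
    rw [h8] at h6
    have h9 := hη n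
    have h10 : ε ≤ a / 2 := min_le_right _ _
    have h11 : (1 + ε) * θ ≤ θ + ε := by nlinarith
    rw [abs_le] at h5 h6 ⊢
    constructor <;> linarith
  -- Baire
  set C : ℕ → Set (DB E) := fun k => {ψ | ∀ n ≥ k, |fn ψ (x n)| ≤ θ - a / 2} ∪ Oᶜ with hC
  have hCc : ∀ k, IsClosed (C k) := by
    intro k
    refine IsClosed.union ?_ hO.isClosed_compl
    have : {ψ : DB E | ∀ n ≥ k, |fn ψ (x n)| ≤ θ - a / 2} =
        ⋂ n, ⋂ (_ : n ≥ k), {ψ : DB E | |fn ψ (x n)| ≤ θ - a / 2} := by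
      ext ψ; simp
    rw [this]
    exact isClosed_iInter fun n => isClosed_iInter fun _ =>
      isClosed_le (fn_cont _).abs continuous_const
  have hCU : ⋃ k, C k = Set.univ := by
    rw [Set.eq_univ_iff_forall]
    intro ψ
    by_cases hψ : ψ ∈ O
    · obtain ⟨k, hk⟩ := key ψ hψ
      exact Set.mem_iUnion.2 ⟨k, Or.inl hk⟩
    · exact Set.mem_iUnion.2 ⟨0, Or.inr hψ⟩
  have hd := dense_iUnion_interior_of_closed hCc hCU
  obtain ⟨ψ, hψO, hψ⟩ := hd.inter_open_nonempty O hO hOne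
  obtain ⟨k, hk⟩ := Set.mem_iUnion.1 hψ
  refine ⟨O ∩ interior (C k), hO.inter isOpen_interior, ⟨ψ, hψO, hk⟩, k, fun φ hφ n hn => ?_⟩
  rcases interior_subset hφ.2 with h | h
  · exact h n hn
  · exact absurd hφ.1 h

/-- the lemma -/
theorem null_of_star (η : ℕ → StrongDual ℝ E)
    (hw : ∀ y, Tendsto (fun n => η n y) atTop (𝓝 0))
    (hstar : ∀ ψ : StrongDual ℝ E, ‖ψ‖ ≤ 1 → ∀ ε : ℝ, 0 < ε → ∀ᶠ n in atTop, ‖ψ + η n‖ ≤ 1 + ε) :
    Tendsto (fun n => ‖η n‖) atTop (𝓝 0) := by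
  by_contra hcon
  -- a subsequence bounded away from zero
  obtain ⟨δ, hδ, hfr⟩ : ∃ δ : ℝ, 0 < δ ∧ ∃ᶠ n in atTop, δ ≤ ‖η n‖ := by
    by_contra h
    push Not at h
    apply hcon
    rw [Metric.tendsto_nhds]
    intro ε hε
    filter_upwards [h ε hε] with n hn
    rw [Real.dist_eq, sub_zero, abs_of_nonneg (norm_nonneg _)]
    exact hn
  obtain ⟨φ, hφ, hφδ⟩ := Filter.extraction_of_frequently_atTop hfr
  set a : ℝ := δ / 2 with ha
  have ha0 : 0 < a := by positivity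
  have hx : ∀ n, ∃ x : E, ‖x‖ ≤ 1 ∧ a ≤ η (φ n) x := by
    intro n
    obtain ⟨x, hx1, hx2⟩ := ContinuousLinearMap.exists_lt_apply_of_lt_opNorm (η (φ n))
      (r := a) (by have := hφδ n; linarith)
    rw [Real.norm_eq_abs] at hx2
    rcases le_total 0 (η (φ n) x) with h | h
    · exact ⟨x, hx1.le, by rw [abs_of_nonneg h] at hx2; exact hx2.le⟩
    · refine ⟨-x, by rw [norm_neg]; exact hx1.le, ?_⟩
      rw [map_neg]
      rw [abs_of_nonpos h] at hx2
      exact hx2.le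
  choose x hx1 hx2 using hx
  have hw' : ∀ y, Tendsto (fun n => η (φ n) y) atTop (𝓝 0) := fun y =>
    (hw y).comp hφ.tendsto_atTop
  have hstar' : ∀ ψ : StrongDual ℝ E, ‖ψ‖ ≤ 1 → ∀ ε : ℝ, 0 < ε →
      ∀ᶠ n in atTop, ‖ψ + η (φ n)‖ ≤ 1 + ε := fun ψ hψ ε hε =>
    hφ.tendsto_atTop.eventually (hstar ψ hψ ε hε)
  have hQ : ∀ k : ℕ, ∃ O : Set (DB E), IsOpen O ∧ O.Nonempty ∧ ∃ m : ℕ, ∀ ψ ∈ O, ∀ n ≥ m,
      |fn ψ (x n)| ≤ 1 - k * (a / 2) := by
    intro k
    induction k with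
    | zero =>
      refine ⟨Set.univ, isOpen_univ, ⟨mkDB 0 (by simp), trivial⟩, 0, fun ψ _ n _ => ?_⟩
      rw [Nat.cast_zero, zero_mul, sub_zero]
      have h1 := (fn ψ).le_opNorm (x n)
      rw [Real.norm_eq_abs] at h1
      refine h1.trans ?_
      have h2 := fn_norm ψ
      have h3 := hx1 n
      calc ‖fn ψ‖ * ‖x n‖ ≤ 1 * 1 := mul_le_mul h2 h3 (norm_nonneg _) zero_le_one
        _ = 1 := one_mul 1
    | succ k ih =>
      have hle : 1 - (k : ℝ) * (a / 2) ≤ 1 := by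
        have : (0 : ℝ) ≤ k * (a / 2) := by positivity
        linarith
      obtain ⟨O, h1, h2, m, h3⟩ := baire_step x (fun n => η (φ n)) ha0 hx2 hx1 hw' hstar' hle ih
      refine ⟨O, h1, h2, m, fun ψ hψ n hn => (h3 ψ hψ n hn).trans (le_of_eq ?_)⟩
      push_cast
      ring
  obtain ⟨k, hk⟩ := exists_nat_gt (2 / a)
  obtain ⟨O, -, ⟨ψ, hψ⟩, m, hm⟩ := hQ k
  have h1 := hm ψ hψ m le_rfl
  have h2 := abs_nonneg (fn ψ (x m))
  have h3 : 1 < (k : ℝ) * (a / 2) := by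
    rw [div_lt_iff₀ ha0] at hk
    linarith
  linarith

end Pool.Agent.H821.Rot
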