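import Pool.Agent.H821.Rot.Exact
import Pool.Agent.H755R2.MT.Hilbert
import Pool.Agent.Y278.Rot.HessMain

/-! # Norm-separable transitive groups which are amenable modulo compact operators -/

set_option autoImplicit false
set_option linter.unusedSectionVars false
set_option linter.unusedVariables false

namespace Pool.Agent.H821.Rot

open TopologicalSpace Metric Filter Topology

variable {E : Type} [NormedAddCommGroup E] [NormedSpace ℝ E]

/-- (a): the space is Hilbertian -/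
theorem hilbertian [CompleteSpace E] [SeparableSpace E] (G : Subgroup (E ≃ₗᵢ[ℝ] E))
    (hsep : IsSeparable (ops (G : Set (E ≃ₗᵢ[ℝ] E))))
    (htr : ∀ x y : E, ‖x‖ = 1 → ‖y‖ = 1 → ∃ T ∈ G, T x = y) :
    ∃ (H : Type) (instH : NormedAddCommGroup H) (instI : InnerProductSpace ℝ H)
      (instC : CompleteSpace H), Nonempty (E ≃L[ℝ] H) := by
  obtain ⟨t, ht, h⟩ := open_norm G hsep htr (κ := 1 / 4) (by norm_num)
  refine Pool.H755R2.MT.main (κ := 1 / 4) (by norm_num) ht fun x y u hx hy hu hxy => ?_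
  obtain ⟨T, hT1, hT2⟩ := h x y hx hy (by rw [norm_sub_rev]; exact hxy)
  refine ⟨T, hT1, (norm_op_apply_sub T u).trans ?_⟩
  rw [hu, mul_one]
  exact hT2

/-- unit vectors in the kernels of finitely many functionals -/
lemma exists_unit_ker (hE : ¬ FiniteDimensional ℝ E) (s : Finset (StrongDual ℝ E)) :
    ∃ x : E, ‖x‖ = 1 ∧ ∀ f ∈ s, f x = 0 := by
  classical
  let L : E →ₗ[ℝ] (s → ℝ) := LinearMap.pi fun f => (f.1 : E →ₗ[ℝ] ℝ)
  have hL : ¬ Function.Injective L := fun h => hE (FiniteDimensional.of_injective L h)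
  rw [← LinearMap.ker_eq_bot, Submodule.eq_bot_iff] at hL
  push Not at hL
  obtain ⟨x, hx, hx0⟩ := hL
  have hn : ‖x‖ ≠ 0 := norm_ne_zero_iff.2 hx0
  refine ⟨‖x‖⁻¹ • x, ?_, fun f hf => ?_⟩
  · rw [norm_smul, norm_inv, norm_norm, inv_mul_cancel₀ hn]
  · have h1 : L x ⟨f, hf⟩ = 0 := by
      rw [LinearMap.mem_ker.1 hx]; rfl
    have h2 : f x = 0 := h1
    rw [map_smul, h2, smul_zero]

/-- weakly null families are mapped to null families by compact operators -/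
lemma compact_null {ι : Type*} (U : Ultrafilter ι) (x : ι → E) (hx : ∀ i, ‖x i‖ ≤ 1)
    (hw : ∀ f : StrongDual ℝ E, ∀ᶠ i in (U : Filter ι), f (x i) = 0) (K : E →L[ℝ] E)
    (hK : IsCompactOperator K) : Tendsto (fun i => ‖K (x i)‖) U (𝓝 0) := by
  have hc : IsCompact (closure (K '' closedBall (0 : E) 1)) :=
    IsCompactOperator.isCompact_closure_image_closedBall (𝕜₁ := ℝ) (f := (K : E →ₗ[ℝ] E)) hK 1
  have hmem : ∀ i, K (x i) ∈ closure (K '' closedBall (0 : E) 1) := fun i =>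
    subset_closure ⟨x i, mem_closedBall_zero_iff.2 (hx i), rfl⟩
  obtain ⟨y, -, hy⟩ := hc.ultrafilter_le_nhds (U.map fun i => K (x i))
    (by
      rw [le_principal_iff, Ultrafilter.mem_coe, Ultrafilter.mem_map]
      exact Filter.univ_mem' hmem)
  have hy' : Tendsto (fun i => K (x i)) U (𝓝 y) := hy
  have h0 : y = 0 := by
    refine (SeparatingDual.eq_zero_iff_forall_dual_eq_zero (R := ℝ) y).2 fun f => ?_
    have h1 : Tendsto (fun i => f (K (x i))) U (𝓝 (f y)) := (f.continuous.tendsto y).comp hy'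
    have h2 : Tendsto (fun i => f (K (x i))) U (𝓝 0) := by
      refine tendsto_const_nhds.congr' ?_
      filter_upwards [hw (f.comp K)] with i hi
      exact hi.symm
    exact tendsto_nhds_unique h1 h2
  rw [h0] at hy'
  simpa using hy'.norm

/-- functions on `G` which are bounded and constant modulo compact operators -/
def Adm (G : Subgroup (E ≃ₗᵢ[ℝ] E)) (φ : G → ℝ) : Prop :=
  (∃ C : ℝ, ∀ T, |φ T| ≤ C) ∧
    ∀ S T : G, IsCompactOperator (fun x : E => (S : E ≃ₗᵢ[ℝ] E) x - (T : E ≃ₗᵢ[ℝ] E) x) →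
      φ S = φ T

/-- amenability modulo compact operators: there is a left invariant mean on the bounded functions
on `G` whose values at `S` and `T` agree when `S - T` is compact -/
def AmenableModCompact (G : Subgroup (E ≃ₗᵢ[ℝ] E)) : Prop :=
  ∃ m : (G → ℝ) → ℝ,
    (∀ φ ψ, Adm G φ → Adm G ψ → m (fun T => φ T + ψ T) = m φ + m ψ) ∧
    (∀ (r : ℝ) φ, Adm G φ → m (fun T => r * φ T) = r * m φ) ∧
    (∀ φ, Adm G φ → (∀ T, 0 ≤ φ T) → 0 ≤ m φ) ∧
    m (fun _ => 1) = 1 ∧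
    ∀ (R : G) φ, Adm G φ → m (fun T => φ (R * T)) = m φ

/-- bilinear bound -/
lemma form_bound {A : E →L[ℝ] E →L[ℝ] ℝ} {C : ℝ} (hs : ∀ v w, A v w = A w v)
    (h0 : ∀ w, 0 ≤ A w w) (h1 : ∀ w, A w w ≤ C * ‖w‖ ^ 2) (hC : 0 ≤ C) (u v : E) :
    |A u v| ≤ C * ‖u‖ * ‖v‖ := by
  have key : ∀ u v : E, ‖u‖ = 1 → ‖v‖ = 1 → |A u v| ≤ C := by
    intro u v hu hv
    have h2 := Pool.Agent.Y278.Rot.polar hs u v
    have h3 := h1 (u + v)
    have h4 := h1 (u - v)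
    have h5 := h0 (u + v)
    have h6 := h0 (u - v)
    have h7 : ‖u + v‖ ^ 2 ≤ 4 := by
      have : ‖u + v‖ ≤ 2 := (norm_add_le _ _).trans (by rw [hu, hv]; norm_num)
      nlinarith [norm_nonneg (u + v)]
    have h8 : ‖u - v‖ ^ 2 ≤ 4 := by
      have : ‖u - v‖ ≤ 2 := (norm_sub_le _ _).trans (by rw [hu, hv]; norm_num)
      nlinarith [norm_nonneg (u - v)]
    have h9 : A (u + v) (u + v) ≤ C * 4 := h3.trans (mul_le_mul_of_nonneg_left h7 hC)
    have h10 : A (u - v) (u - v) ≤ C * 4 := h4.trans (mul_le_mul_of_nonneg_left h8 hC)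
    rw [h2, abs_le]
    constructor <;> linarith
  by_cases hu : u = 0
  · simp [hu]
  by_cases hv : v = 0
  · simp [hv]
  have hu' : ‖u‖ ≠ 0 := norm_ne_zero_iff.2 hu
  have hv' : ‖v‖ ≠ 0 := norm_ne_zero_iff.2 hv
  have h2 := key (‖u‖⁻¹ • u) (‖v‖⁻¹ • v)
    (by rw [norm_smul, norm_inv, norm_norm, inv_mul_cancel₀ hu'])
    (by rw [norm_smul, norm_inv, norm_norm, inv_mul_cancel₀ hv'])
  have h3 : A u v = ‖u‖ * ‖v‖ * A (‖u‖⁻¹ • u) (‖v‖⁻¹ • v) := by
    simp only [map_smul, _root_.smul_apply, smul_eq_mul]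
    field_simp
  rw [h3, abs_mul, abs_of_nonneg (by positivity)]
  calc ‖u‖ * ‖v‖ * |A (‖u‖⁻¹ • u) (‖v‖⁻¹ • v)| ≤ ‖u‖ * ‖v‖ * C :=
        mul_le_mul_of_nonneg_left h2 (by positivity)
    _ = C * ‖u‖ * ‖v‖ := by ring

/-- an equivalent quadratic form, invariant under the elements of `G` of the form `1 + compact` -/
theorem exists_form [CompleteSpace E] [SeparableSpace E] (hE : ¬ FiniteDimensional ℝ E)
    (G : Subgroup (E ≃ₗᵢ[ℝ] E)) (hsep : IsSeparable (ops (G : Set (E ≃ₗᵢ[ℝ] E))))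
    (htr : ∀ x y : E, ‖x‖ = 1 → ‖y‖ = 1 → ∃ T ∈ G, T x = y) :
    ∃ (c C : ℝ) (q : E → ℝ), 0 < c ∧ (∀ v, c * ‖v‖ ^ 2 ≤ q v ∧ q v ≤ C * ‖v‖ ^ 2) ∧
      (∀ u v, q (u + v) + q (u - v) = 2 * q u + 2 * q v) ∧ (∀ (r : ℝ) v, q (r • v) = r ^ 2 * q v) ∧
      ∀ T : E ≃ₗᵢ[ℝ] E, IsCompactOperator (fun x : E => T x - x) → ∀ v, q (T v) = q v := by
  obtain ⟨H, i1, i2, i3, ⟨Φ⟩⟩ := hilbertian G hsep htr
  have htr' : ∀ x y : E, ‖x‖ = 1 → ‖y‖ = 1 → ∃ T : E ≃ₗᵢ[ℝ] E, T x = y := fun x y hx hy => by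
    obtain ⟨T, -, h⟩ := htr x y hx hy
    exact ⟨T, h⟩
  obtain ⟨c, C, f, A, hc, hA, -⟩ := Pool.Agent.Y278.Rot.hessian_field Φ htr'
  have hopen : ∀ κ : ℝ, 0 < κ → ∃ t : ℝ, 0 < t ∧ ∀ x y : E, ‖x‖ = 1 → ‖y‖ = 1 → ‖y - x‖ ≤ t →
      ∃ T : E ≃ₗᵢ[ℝ] E, T x = y ∧ ‖op T - 1‖ ≤ κ := fun κ hκ => open_norm G hsep htr hκ
  -- the unit vectors
  choose x hx1 hx2 using exists_unit_ker hE
  have : (atTop : Filter (Finset (StrongDual ℝ E))).NeBot := inferInstance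
  set U : Ultrafilter (Finset (StrongDual ℝ E)) := Ultrafilter.of atTop with hU
  have hw : ∀ g : StrongDual ℝ E, ∀ᶠ s in (U : Filter (Finset (StrongDual ℝ E))), g (x s) = 0 := by
    intro g
    have h1 : ∀ᶠ s in (atTop : Filter (Finset (StrongDual ℝ E))), g (x s) = 0 := by
      filter_upwards [eventually_ge_atTop ({g} : Finset (StrongDual ℝ E))] with s hs
      exact hx2 s g (hs (Finset.mem_singleton_self g))
    exact h1.filter_mono (Ultrafilter.of_le atTop)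
  have hC0 : 0 ≤ C := by
    have h1 := (hA (x ∅) (hx1 ∅)).2.1 (x ∅)
    rw [hx1] at h1
    linarith [h1.1, h1.2]
  have hlow : ∀ s w, c * ‖w‖ ^ 2 ≤ A (x s) w w := fun s w => ((hA _ (hx1 s)).2.1 w).1
  have hup : ∀ s w, A (x s) w w ≤ C * ‖w‖ ^ 2 := fun s w => ((hA _ (hx1 s)).2.1 w).2
  have hbd : ∀ s (u v : E), |A (x s) u v| ≤ C * ‖u‖ * ‖v‖ := fun s =>
    form_bound (hA _ (hx1 s)).1 (fun w => le_trans (by positivity) (hlow s w)) (hup s) hC0
  -- the limits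
  have hlim : ∀ v, ∃ l : ℝ, Tendsto (fun s => A (x s) v v) U (𝓝 l) := by
    intro v
    obtain ⟨l, -, hl⟩ := (isCompact_Icc (a := c * ‖v‖ ^ 2) (b := C * ‖v‖ ^ 2)).ultrafilter_le_nhds
      (U.map fun s => A (x s) v v) (by
        rw [le_principal_iff, Ultrafilter.mem_coe, Ultrafilter.mem_map]
        exact Filter.univ_mem' fun s => ⟨hlow s v, hup s v⟩)
    exact ⟨l, hl⟩
  choose q hq using hlim
  refine ⟨c, C, q, hc, fun v => ⟨ge_of_tendsto' (hq v) fun s => hlow s v,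
    le_of_tendsto' (hq v) fun s => hup s v⟩, fun u v => ?_, fun r v => ?_, fun T hT v => ?_⟩
  · refine tendsto_nhds_unique ((hq (u + v)).add (hq (u - v))) ?_
    refine (((hq u).const_mul 2).add ((hq v).const_mul 2)).congr fun s => ?_
    simp only [map_add, map_sub, _root_.add_apply, _root_.sub_apply]
    ring
  · refine tendsto_nhds_unique (hq (r • v)) ?_
    refine ((hq v).const_mul (r ^ 2)).congr fun s => ?_
    simp only [map_smul, _root_.smul_apply, smul_eq_mul]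
    ring
  · -- invariance
    have hnull : Tendsto (fun s => ‖T (x s) - x s‖) U (𝓝 0) :=
      compact_null U x (fun s => (hx1 s).le) hw (op T - 1) hT
    have key : ∀ ε : ℝ, 0 < ε → |q (T v) - q v| ≤ 2 * C * ‖v‖ ^ 2 * ε := by
      intro ε hε
      obtain ⟨t, ht, hop⟩ := hopen ε hε
      have h1 : ∀ᶠ s in (U : Filter (Finset (StrongDual ℝ E))),
          |A (x s) (T v) (T v) - A (x s) v v| ≤ 2 * C * ‖v‖ ^ 2 * ε := by
        filter_upwards [hnull.eventually (gt_mem_nhds ht)] with s hs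
        -- `T⁻¹ (x s)` is close to `x s`
        have hTx : ‖T.symm (x s)‖ = 1 := by rw [T.symm.norm_map, hx1]
        obtain ⟨S, hS1, hS2⟩ := hop (x s) (T.symm (x s)) (hx1 s) hTx (by
          have h2 : T.symm (x s) - x s = - T.symm (T (x s) - x s) := by
            rw [map_sub, T.symm_apply_apply]; abel
          rw [h2, norm_neg, T.symm.norm_map]
          exact hs.le)
        have e1 : A (x s) (T v) (T v) = A (T.symm (x s)) v v := by
          have := (hA _ hTx).2.2.2 T v v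
          rwa [T.apply_symm_apply] at this
        set w : E := S.symm v with hw'
        have e2 : A (T.symm (x s)) v v = A (x s) w w := by
          have := (hA _ (hx1 s)).2.2.2 S w w
          rwa [hS1, hw', S.apply_symm_apply] at this
        have hwv : ‖w - v‖ ≤ ε * ‖v‖ := by
          have h3 : ‖w - v‖ = ‖S v - v‖ := by
            have h4 : w - v = - S.symm (S v - v) := by
              rw [map_sub, S.symm_apply_apply]; abel
            rw [h4, norm_neg, S.symm.norm_map]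
          rw [h3]
          exact (norm_op_apply_sub S v).trans (mul_le_mul_of_nonneg_right hS2 (norm_nonneg _))
        have hwn : ‖w‖ = ‖v‖ := S.symm.norm_map v
        have e3 : A (x s) w w - A (x s) v v = A (x s) (w - v) w + A (x s) v (w - v) := by
          simp only [map_sub, _root_.sub_apply]
          ring
        rw [e1, e2, e3]
        calc |A (x s) (w - v) w + A (x s) v (w - v)|
            ≤ |A (x s) (w - v) w| + |A (x s) v (w - v)| := abs_add_le _ _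
          _ ≤ C * ‖w - v‖ * ‖w‖ + C * ‖v‖ * ‖w - v‖ := add_le_add (hbd _ _ _) (hbd _ _ _)
          _ = 2 * C * ‖v‖ * ‖w - v‖ := by rw [hwn]; ring
          _ ≤ 2 * C * ‖v‖ * (ε * ‖v‖) := mul_le_mul_of_nonneg_left hwv (by positivity)
          _ = 2 * C * ‖v‖ ^ 2 * ε := by ring
      exact le_of_tendsto ((hq (T v)).sub (hq v)).abs h1
    have h0 : |q (T v) - q v| ≤ 0 := by
      refine le_of_forall_pos_le_add fun η hη => ?_
      have hpos : 0 < 2 * C * ‖v‖ ^ 2 + 1 := by positivity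
      have h2 := key (η / (2 * C * ‖v‖ ^ 2 + 1)) (by positivity)
      have h3 : 2 * C * ‖v‖ ^ 2 * (η / (2 * C * ‖v‖ ^ 2 + 1)) ≤ η := by
        rw [mul_div_assoc', div_le_iff₀ hpos]
        nlinarith
      linarith
    have h4 := abs_nonpos_iff.1 h0
    linarith

/-- a quadratic form which is invariant under a transitive group is a multiple of the square of the
norm -/
theorem hilbert_of_form [CompleteSpace E] (hne : ∃ e : E, ‖e‖ = 1) (G : Subgroup (E ≃ₗᵢ[ℝ] E))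
    (htr : ∀ x y : E, ‖x‖ = 1 → ‖y‖ = 1 → ∃ T ∈ G, T x = y) {c : ℝ} (q : E → ℝ) (hc : 0 < c)
    (hlow : ∀ v, c * ‖v‖ ^ 2 ≤ q v)
    (hpar : ∀ u v, q (u + v) + q (u - v) = 2 * q u + 2 * q v)
    (hsm : ∀ (r : ℝ) v, q (r • v) = r ^ 2 * q v) (hinv : ∀ T ∈ G, ∀ v, q (T v) = q v) :
    ∃ (H : Type) (instH : NormedAddCommGroup H) (instI : InnerProductSpace ℝ H)
      (instC : CompleteSpace H), Nonempty (E ≃ₗᵢ[ℝ] H) := by
  obtain ⟨e, he⟩ := hne
  have hd : 0 < q e := by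
    have := hlow e
    rw [he] at this
    linarith
  have hq : ∀ v, q v = q e * ‖v‖ ^ 2 := by
    intro v
    by_cases hv : v = 0
    · rw [hv, norm_zero]
      have := hsm 0 e
      rw [zero_smul] at this
      rw [this]; ring
    · have hn : ‖v‖ ≠ 0 := norm_ne_zero_iff.2 hv
      obtain ⟨T, hT, h1⟩ := htr e (‖v‖⁻¹ • v) he
        (by rw [norm_smul, norm_inv, norm_norm, inv_mul_cancel₀ hn])
      have h2 := hinv T hT e
      rw [h1, hsm] at h2
      have h3 : q v = ‖v‖ ^ 2 * ((‖v‖⁻¹) ^ 2 * q v) := by field_simp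
      rw [h3, h2]; ring
  have key : ∀ x y : E,
      ‖x + y‖ * ‖x + y‖ + ‖x - y‖ * ‖x - y‖ = 2 * (‖x‖ * ‖x‖ + ‖y‖ * ‖y‖) := by
    intro x y
    have h1 := hpar x y
    rw [hq (x + y), hq (x - y), hq x, hq y] at h1
    have h2 : q e * (‖x + y‖ * ‖x + y‖ + ‖x - y‖ * ‖x - y‖) =
        q e * (2 * (‖x‖ * ‖x‖ + ‖y‖ * ‖y‖)) := by
      linear_combination h1
    exact mul_left_cancel₀ hd.ne' h2
  exact ⟨E, inferInstance, InnerProductSpace.ofNorm ℝ key, inferInstance,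
    ⟨LinearIsometryEquiv.refl ℝ E⟩⟩

/-- (b): amenable modulo compact operators -/
theorem hilbert_of_amenable [CompleteSpace E] [SeparableSpace E] (hE : ¬ FiniteDimensional ℝ E)
    (G : Subgroup (E ≃ₗᵢ[ℝ] E)) (hsep : IsSeparable (ops (G : Set (E ≃ₗᵢ[ℝ] E))))
    (htr : ∀ x y : E, ‖x‖ = 1 → ‖y‖ = 1 → ∃ T ∈ G, T x = y) (ham : AmenableModCompact G) :
    ∃ (H : Type) (instH : NormedAddCommGroup H) (instI : InnerProductSpace ℝ H)
      (instC : CompleteSpace H), Nonempty (E ≃ₗᵢ[ℝ] H) := by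
  obtain ⟨c, C, q, hc, hq, hpar, hsm, hinv⟩ := exists_form hE G hsep htr
  obtain ⟨m, madd, msmul, mpos, mone, minv⟩ := ham
  -- orbit functions
  set φ : E → G → ℝ := fun v g => q ((g : E ≃ₗᵢ[ℝ] E)⁻¹ v) with hφ
  have hn : ∀ (g : E ≃ₗᵢ[ℝ] E) (v : E), ‖g⁻¹ v‖ = ‖v‖ := fun g v => g.symm.norm_map v
  have hadm : ∀ v, Adm G (φ v) := by
    intro v
    refine ⟨⟨C * ‖v‖ ^ 2, fun g => ?_⟩, fun S T hST => ?_⟩
    · have h1 := hq ((g : E ≃ₗᵢ[ℝ] E)⁻¹ v)
      rw [hn] at h1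
      rw [abs_le]
      have : 0 ≤ c * ‖v‖ ^ 2 := by positivity
      exact ⟨by linarith [h1.1, h1.2], h1.2⟩
    · -- `R = T⁻¹ S` is `1 + compact`
      show q ((S : E ≃ₗᵢ[ℝ] E)⁻¹ v) = q ((T : E ≃ₗᵢ[ℝ] E)⁻¹ v)
      set R : E ≃ₗᵢ[ℝ] E := (T : E ≃ₗᵢ[ℝ] E)⁻¹ * S with hR
      have hRc : IsCompactOperator (fun x : E => R x - x) := by
        have h1 : IsCompactOperator (fun x : E => (op (T : E ≃ₗᵢ[ℝ] E)⁻¹)
            ((S : E ≃ₗᵢ[ℝ] E) x - (T : E ≃ₗᵢ[ℝ] E) x)) := hST.clm_comp _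
        have h2 : (fun x : E => R x - x) = fun x : E => (op (T : E ≃ₗᵢ[ℝ] E)⁻¹)
            ((S : E ≃ₗᵢ[ℝ] E) x - (T : E ≃ₗᵢ[ℝ] E) x) := by
          funext x
          rw [map_sub]
          congr 1
          exact ((T : E ≃ₗᵢ[ℝ] E).symm_apply_apply x).symm
        rw [h2]
        exact h1
      have h2 := hinv R hRc ((S : E ≃ₗᵢ[ℝ] E)⁻¹ v)
      rw [← h2]
      congr 1
      show (T : E ≃ₗᵢ[ℝ] E)⁻¹ ((S : E ≃ₗᵢ[ℝ] E) ((S : E ≃ₗᵢ[ℝ] E)⁻¹ v)) = _
      congr 1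
      exact (S : E ≃ₗᵢ[ℝ] E).apply_symm_apply v
  have hone : Adm G (fun _ => 1) := ⟨⟨1, fun _ => by norm_num⟩, fun _ _ _ => rfl⟩
  have hcadm : ∀ r : ℝ, Adm G (fun _ => r) := fun r => ⟨⟨|r|, fun _ => le_rfl⟩, fun _ _ _ => rfl⟩
  have hadd : ∀ {φ ψ : G → ℝ}, Adm G φ → Adm G ψ → Adm G (fun T => φ T + ψ T) := by
    rintro φ ψ ⟨⟨C1, h1⟩, h2⟩ ⟨⟨C2, h3⟩, h4⟩
    exact ⟨⟨C1 + C2, fun T => (abs_add_le _ _).trans (add_le_add (h1 T) (h3 T))⟩,
      fun S T h => by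
        show φ S + ψ S = φ T + ψ T
        rw [h2 S T h, h4 S T h]⟩
  have hsmul : ∀ {φ : G → ℝ} (r : ℝ), Adm G φ → Adm G (fun T => r * φ T) := by
    rintro φ r ⟨⟨C1, h1⟩, h2⟩
    exact ⟨⟨|r| * C1, fun T => by
      rw [abs_mul]; exact mul_le_mul_of_nonneg_left (h1 T) (abs_nonneg _)⟩,
      fun S T h => by
        show r * φ S = r * φ T
        rw [h2 S T h]⟩
  have mconst : ∀ r : ℝ, m (fun _ => r) = r := by
    intro r
    have := msmul r (fun _ => 1) hone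
    simp only [mul_one, mone] at this
    exact this
  have hne : ∃ e : E, ‖e‖ = 1 := by
    obtain ⟨e, he, -⟩ := exists_unit_ker hE ∅
    exact ⟨e, he⟩
  refine hilbert_of_form hne G htr (c := c) (fun v => m (φ v)) hc (fun v => ?_) (fun u v => ?_)
    (fun r v => ?_) (fun T hT v => ?_)
  · -- lower bound
    have h1 : 0 ≤ m (fun T => φ v T + -(c * ‖v‖ ^ 2)) := by
      refine mpos _ (hadd (hadm v) (hcadm _)) fun T => ?_
      have h2 := (hq ((T : E ≃ₗᵢ[ℝ] E)⁻¹ v)).1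
      rw [hn] at h2
      show 0 ≤ q ((T : E ≃ₗᵢ[ℝ] E)⁻¹ v) + -(c * ‖v‖ ^ 2)
      linarith
    rw [madd _ _ (hadm v) (hcadm _), mconst] at h1
    linarith
  · -- parallelogram law
    have h1 := madd _ _ (hadm (u + v)) (hadm (u - v))
    have h2 := madd _ _ (hsmul 2 (hadm u)) (hsmul 2 (hadm v))
    rw [msmul 2 _ (hadm u), msmul 2 _ (hadm v)] at h2
    show m (φ (u + v)) + m (φ (u - v)) = 2 * m (φ u) + 2 * m (φ v)
    rw [← h1, ← h2]
    congr 1
    funext T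
    show q ((T : E ≃ₗᵢ[ℝ] E)⁻¹ (u + v)) + q ((T : E ≃ₗᵢ[ℝ] E)⁻¹ (u - v)) =
      2 * q ((T : E ≃ₗᵢ[ℝ] E)⁻¹ u) + 2 * q ((T : E ≃ₗᵢ[ℝ] E)⁻¹ v)
    rw [map_add, map_sub, hpar]
  · have h1 := msmul (r ^ 2) _ (hadm v)
    show m (φ (r • v)) = r ^ 2 * m (φ v)
    rw [← h1]
    congr 1
    funext T
    show q ((T : E ≃ₗᵢ[ℝ] E)⁻¹ (r • v)) = r ^ 2 * q ((T : E ≃ₗᵢ[ℝ] E)⁻¹ v)
    rw [map_smul, hsm]
  · have h1 := minv (⟨T, hT⟩⁻¹ : G) (φ v) (hadm v)
    show m (φ (T v)) = m (φ v)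
    rw [← h1]
    congr 1

/-- if all members of `G` are `1 + compact`, then `G` is amenable modulo compact operators -/
lemma amenable_of_compact (G : Subgroup (E ≃ₗᵢ[ℝ] E))
    (h : ∀ T ∈ G, IsCompactOperator (fun x : E => T x - x)) : AmenableModCompact G := by
  have hc : ∀ φ : G → ℝ, Adm G φ → ∀ S T, φ S = φ T := by
    intro φ hφ S T
    refine hφ.2 S T ?_
    have h1 := (h S S.2).sub (h T T.2)
    have h2 : (fun x : E => (S : E ≃ₗᵢ[ℝ] E) x - (T : E ≃ₗᵢ[ℝ] E) x) =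
        (fun x : E => (S : E ≃ₗᵢ[ℝ] E) x - x) - fun x : E => (T : E ≃ₗᵢ[ℝ] E) x - x := by
      funext x
      show (S : E ≃ₗᵢ[ℝ] E) x - (T : E ≃ₗᵢ[ℝ] E) x =
        ((S : E ≃ₗᵢ[ℝ] E) x - x) - ((T : E ≃ₗᵢ[ℝ] E) x - x)
      abel
    rw [h2]
    exact h1
  refine ⟨fun φ => φ 1, fun φ ψ _ _ => rfl, fun r φ _ => rfl, fun φ _ h0 => h0 1, rfl,
    fun R φ hφ => hc φ hφ _ _⟩

end Pool.Agent.H821.Rot
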