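import Pool.Agent.H821.Rot.Dual

/-! # Separability of the group of compact perturbations of the identity -/

set_option autoImplicit false
set_option linter.unusedSectionVars false
set_option linter.unusedVariables false

namespace Pool.Agent.H821.Rot

open TopologicalSpace Metric Filter Topology

variable {E : Type} [NormedAddCommGroup E] [NormedSpace ℝ E]

/-- bounded sequences of functionals which converge on a dense sequence converge -/
lemma conv_of_dense [SeparableSpace E] {l : Filter ℕ} (h : ℕ → StrongDual ℝ E)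
    (f : StrongDual ℝ E) (hh : ∀ n, ‖h n‖ ≤ 1) (hf : ‖f‖ ≤ 1)
    (hd : ∀ j, Tendsto (fun n => h n (denseSeq E j)) l (𝓝 (f (denseSeq E j)))) (y : E) :
    Tendsto (fun n => h n y) l (𝓝 (f y)) := by
  rw [Metric.tendsto_nhds]
  intro ε hε
  obtain ⟨j, hj⟩ := Metric.denseRange_iff.1 (denseRange_denseSeq E) y (ε / 4) (by positivity)
  have h1 := hd j
  rw [Metric.tendsto_nhds] at h1
  filter_upwards [h1 (ε / 4) (by positivity)] with n hn
  rw [dist_eq_norm] at hj
  have h2 : ∀ g : StrongDual ℝ E, ‖g‖ ≤ 1 → |g y - g (denseSeq E j)| ≤ ε / 4 := by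
    intro g hg
    rw [← map_sub]
    have h3 := g.le_opNorm (y - denseSeq E j)
    rw [Real.norm_eq_abs] at h3
    refine h3.trans ?_
    calc ‖g‖ * ‖y - denseSeq E j‖ ≤ 1 * (ε / 4) :=
          mul_le_mul hg hj.le (norm_nonneg _) zero_le_one
      _ = ε / 4 := one_mul _
  have h4 := h2 (h n) (hh n)
  have h5 := h2 f hf
  rw [Real.dist_eq] at hn ⊢
  rw [abs_le] at h4 h5
  rw [abs_lt] at hn ⊢
  constructor <;> linarith [h4.1, h4.2, h5.1, h5.2, hn.1, hn.2]

theorem dual_separable [CompleteSpace E] [SeparableSpace E]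
    (hG : ∀ x y : E, ‖x‖ = 1 → ‖y‖ = 1 → ∃ T : E ≃ₗᵢ[ℝ] E,
      IsCompactOperator (fun z : E => T z - z) ∧ T x = y) :
    SeparableSpace (StrongDual ℝ E) := by
  -- the sphere is separable
  have hS : IsSeparable (sphere (0 : StrongDual ℝ E) 1) := by
    by_cases hne : Nonempty (sphere (0 : StrongDual ℝ E) 1)
    swap
    · have : sphere (0 : StrongDual ℝ E) 1 = ∅ := Set.not_nonempty_iff_eq_empty.1 (by
        rintro ⟨x, hx⟩; exact hne ⟨⟨x, hx⟩⟩)
      rw [this]
      exact Set.countable_empty.isSeparable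
    let Φ : sphere (0 : StrongDual ℝ E) 1 → (ℕ → ℝ) := fun f j => (f : StrongDual ℝ E) (denseSeq E j)
    have : Nonempty (Set.range Φ) := ⟨⟨_, hne.some, rfl⟩⟩
    let a := denseSeq (Set.range Φ)
    have ha : DenseRange a := denseRange_denseSeq _
    have hch : ∀ n, ∃ f : sphere (0 : StrongDual ℝ E) 1, Φ f = a n := fun n => (a n).2
    choose h hh using hch
    refine ⟨Set.range fun n => (h n : StrongDual ℝ E), Set.countable_range _, fun f hf => ?_⟩
    have hf1 : ‖f‖ = 1 := mem_sphere_zero_iff_norm.1 hf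
    -- a sequence converging to `Φ f`
    have hmem : (⟨Φ ⟨f, hf⟩, ⟨⟨f, hf⟩, rfl⟩⟩ : Set.range Φ) ∈ closure (Set.range a) := ha _
    obtain ⟨b, hb, hbt⟩ := mem_closure_iff_seq_limit.1 hmem
    choose k hk using hb
    have hbt' : Tendsto (fun n => ((b n : Set.range Φ) : ℕ → ℝ)) atTop (𝓝 (Φ ⟨f, hf⟩)) :=
      (continuous_subtype_val.tendsto _).comp hbt
    rw [tendsto_pi_nhds] at hbt'
    have hpt : ∀ j, Tendsto (fun n => (h (k n) : StrongDual ℝ E) (denseSeq E j)) atTop
        (𝓝 (f (denseSeq E j))) := by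
      intro j
      refine (hbt' j).congr fun n => ?_
      rw [← hk n, ← hh (k n)]
    have hn1 : ∀ n, ‖(h n : StrongDual ℝ E)‖ = 1 := fun n => mem_sphere_zero_iff_norm.1 (h n).2
    have hlim := dual_kadec hG f hf1 (fun n => (h (k n) : StrongDual ℝ E)) (fun n => hn1 _)
      (conv_of_dense (fun n => (h (k n) : StrongDual ℝ E)) f (fun n => (hn1 _).le) hf1.le hpt)
    refine mem_closure_of_tendsto (tendsto_iff_norm_sub_tendsto_zero.2 hlim)
      (Eventually.of_forall fun n => ⟨k n, rfl⟩)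
  have hspan : (Submodule.span ℝ (sphere (0 : StrongDual ℝ E) 1) : Set (StrongDual ℝ E)) =
      Set.univ := by
    rw [Set.eq_univ_iff_forall]
    intro f
    by_cases h0 : f = 0
    · rw [h0]; exact Submodule.zero_mem _
    · have hn : ‖f‖ ≠ 0 := norm_ne_zero_iff.2 h0
      have h1 : f = ‖f‖ • (‖f‖⁻¹ • f) := by rw [smul_smul, mul_inv_cancel₀ hn, one_smul]
      rw [h1]
      refine Submodule.smul_mem _ _ (Submodule.subset_span ?_)
      rw [mem_sphere_zero_iff_norm, norm_smul, norm_inv, norm_norm, inv_mul_cancel₀ hn]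
  have h1 := hS.span (R := ℝ)
  rw [hspan] at h1
  exact isSeparable_univ_iff.1 h1

/-- the group of the isometries which are compact perturbations of the identity -/
def compactGroup (E : Type) [NormedAddCommGroup E] [NormedSpace ℝ E] :
    Subgroup (E ≃ₗᵢ[ℝ] E) where
  carrier := {T | IsCompactOperator (fun z : E => T z - z)}
  mul_mem' := by
    intro S T hS hT
    have hS : IsCompactOperator (fun z : E => S z - z) := hS
    have hT : IsCompactOperator (fun z : E => T z - z) := hT
    have h1 : IsCompactOperator (fun z : E => op S (T z - z)) := hT.clm_comp _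
    have h2 : (fun z : E => (S * T) z - z) = (fun z : E => op S (T z - z)) +
        fun z : E => S z - z := by
      funext z
      show S (T z) - z = S (T z - z) + (S z - z)
      rw [map_sub]; abel
    show IsCompactOperator (fun z : E => (S * T) z - z)
    rw [h2]
    exact h1.add hS
  one_mem' := by
    show IsCompactOperator (fun z : E => (1 : E ≃ₗᵢ[ℝ] E) z - z)
    have : (fun z : E => (1 : E ≃ₗᵢ[ℝ] E) z - z) = 0 := by
      funext z
      show z - z = 0
      exact sub_self z
    rw [this]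
    exact isCompactOperator_zero
  inv_mem' := by
    intro S hS
    have hS : IsCompactOperator (fun z : E => S z - z) := hS
    have h1 : IsCompactOperator (fun z : E => (-op S⁻¹) (S z - z)) := hS.clm_comp _
    have h2 : (fun z : E => (S⁻¹) z - z) = (fun z : E => (-op S⁻¹) (S z - z)) := by
      funext z
      show S⁻¹ z - z = -(S⁻¹ (S z - z))
      rw [map_sub]
      have : S⁻¹ (S z) = z := S.symm_apply_apply z
      rw [this]; abel
    show IsCompactOperator (fun z : E => (S⁻¹) z - z)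
    rw [h2]
    exact h1

theorem compactGroup_separable [CompleteSpace E] [SeparableSpace E]
    [SeparableSpace (StrongDual ℝ E)] :
    IsSeparable (ops (compactGroup E : Set (E ≃ₗᵢ[ℝ] E))) := by
  have hX : MetrizableSpace (DB E) :=
    WeakDual.metrizable_of_isCompact ℝ E _ (WeakDual.isCompact_closedBall (0 : StrongDual ℝ E) 1)
  let _ := TopologicalSpace.metrizableSpaceMetric (DB E)
  have hX2 : SecondCountableTopology (DB E) := inferInstance
  have hY : SecondCountableTopology (StrongDual ℝ E) := UniformSpace.secondCountable_of_separable _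
  have hC : SecondCountableTopology C(DB E, StrongDual ℝ E) := inferInstance
  -- the map
  have hcont : ∀ T : compactGroup E, Continuous fun ψ : DB E =>
      (fn ψ).comp (op (T : E ≃ₗᵢ[ℝ] E) - 1) := by
    intro T
    rw [continuous_iff_continuousAt]
    intro ψ0
    have hT : IsCompactOperator (op (T : E ≃ₗᵢ[ℝ] E) - 1 : E →L[ℝ] E) := T.2
    have h1 := compact_dual (l := 𝓝 ψ0) (fun ψ : DB E => fn ψ - fn ψ0) (R := 2)
      (fun ψ => (norm_sub_le _ _).trans (by linarith [fn_norm ψ, fn_norm ψ0]))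
      (fun y => by
        have := ((fn_cont y).tendsto ψ0).sub_const (fn ψ0 y)
        rw [sub_self] at this
        exact this) (op (T : E ≃ₗᵢ[ℝ] E) - 1) hT
    refine tendsto_iff_norm_sub_tendsto_zero.2 (h1.congr fun ψ => ?_)
    rfl
  let F : compactGroup E → C(DB E, StrongDual ℝ E) := fun T => ⟨_, hcont T⟩
  have hFd : ∀ S T : compactGroup E, ‖op (S : E ≃ₗᵢ[ℝ] E) - op (T : E ≃ₗᵢ[ℝ] E)‖ ≤
      dist (F S) (F T) := by
    intro S T
    refine ContinuousLinearMap.opNorm_le_of_unit_norm dist_nonneg fun x hx => ?_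
    obtain ⟨g, hg, hgx⟩ := exists_dual_vector'' ℝ
      ((op (S : E ≃ₗᵢ[ℝ] E) - op (T : E ≃ₗᵢ[ℝ] E)) x)
    have h1 : dist (F S (mkDB g hg)) (F T (mkDB g hg)) ≤ dist (F S) (F T) :=
      ContinuousMap.dist_apply_le_dist _
    have h2 : F S (mkDB g hg) - F T (mkDB g hg) =
        g.comp (op (S : E ≃ₗᵢ[ℝ] E) - op (T : E ≃ₗᵢ[ℝ] E)) := by
      ext z
      show g ((S : E ≃ₗᵢ[ℝ] E) z - z) - g ((T : E ≃ₗᵢ[ℝ] E) z - z) =
        g ((S : E ≃ₗᵢ[ℝ] E) z - (T : E ≃ₗᵢ[ℝ] E) z)
      rw [← map_sub]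
      congr 1
      abel
    rw [dist_eq_norm, h2] at h1
    refine le_trans ?_ h1
    have h3 := (g.comp (op (S : E ≃ₗᵢ[ℝ] E) - op (T : E ≃ₗᵢ[ℝ] E))).le_opNorm x
    rw [hx, mul_one] at h3
    refine le_trans (le_of_eq ?_) h3
    show _ = ‖g ((op (S : E ≃ₗᵢ[ℝ] E) - op (T : E ≃ₗᵢ[ℝ] E)) x)‖
    rw [hgx]
    simp
  -- a countable dense subset of the range
  have : Nonempty (Set.range F) := ⟨⟨_, 1, rfl⟩⟩
  let a := denseSeq (Set.range F)
  have hch : ∀ n, ∃ T : compactGroup E, F T = a n := fun n => (a n).2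
  choose T hT using hch
  refine ⟨Set.range fun n => op (T n : E ≃ₗᵢ[ℝ] E), Set.countable_range _, ?_⟩
  rintro _ ⟨S, hS, rfl⟩
  rw [Metric.mem_closure_iff]
  intro ε hε
  have hcl : F ⟨S, hS⟩ ∈ closure (Set.range fun n =>
      ((denseSeq (Set.range F) n : Set.range F) : C(DB E, StrongDual ℝ E))) := by
    have h0 := denseRange_denseSeq (Set.range F) ⟨F ⟨S, hS⟩, ⟨⟨S, hS⟩, rfl⟩⟩
    have h2 := image_closure_subset_closure_image (continuous_subtype_val (p := (· ∈ Set.range F)))
      (Set.mem_image_of_mem Subtype.val h0)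
    rw [← Set.range_comp] at h2
    exact h2
  obtain ⟨_, ⟨n, rfl⟩, hn⟩ := (Metric.mem_closure_iff (α := C(DB E, StrongDual ℝ E))).1 hcl ε hε
  refine ⟨_, ⟨n, rfl⟩, ?_⟩
  have hn : dist (F ⟨S, hS⟩) (denseSeq (Set.range F) n : C(DB E, StrongDual ℝ E)) < ε := hn
  have h1 : ((denseSeq (Set.range F) n : Set.range F) : C(DB E, StrongDual ℝ E)) = F (T n) :=
    (hT n).symm
  rw [h1] at hn
  rw [dist_eq_norm]
  exact (hFd ⟨S, hS⟩ (T n)).trans_lt hn

end Pool.Agent.H821.Rot
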